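import Pool.Agent.Q224.OM.Time

/-!
# Orientations of mixed graphs preserving the `s`-`t` and the `t`-`s` distance: in `P`

Let `a = d(s, ·)` and `b = d(t, ·)`.  There is such an orientation iff there are a walk `P` of
`a`-tight arcs from `s` to `t` and a walk `Q` of `b`-tight arcs from `t` to `s` which use no
undirected edge in opposite directions (`preserving_iff`, `cond_iff`).  Both `P` and the reverse of
`Q` are non-increasing for the level `b - a`.  Inside a level the two kinds of tight arcs agree, and
there two walks without conflict exist iff no edge is needed in both directions (`nn_iff`, a cut
argument); conflicts of strictly decreasing arcs are seen when both pebbles leave a level together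
(`two_iff`).  So the question becomes reachability in a graph of pairs of vertices.
-/

set_option autoImplicit false

namespace Pool.Agent.Results.MP_bc7fec_lc.Polynomial

open Pool.Agent.NPC Q224.OM

/-- **Q1**: it is decidable in polynomial time whether a mixed graph with non-negative rational
lengths has an orientation which preserves both the distance from `s` to `t` and the distance from
`t` to `s`. -/
theorem result : InPP Preserving := Pool.Agent.NPC.Q224OM.inPP

end Pool.Agent.Results.MP_bc7fec_lc.Polynomial
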